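import Pool.Agent.Helper96.Stx.DefsY
import Pool.Agent.Helper49.Stx.Y2
import Pool.Agent.Helper62.AS.Lp

/-!
# MP_65a63f_X, module Y3b: from level sets to `L^p` for the shifts `|b₀| ≤ K N ^ 2`
-/

set_option autoImplicit false

namespace Stx

open Finset MeasureTheory Pool.Agent.Helper64.AS Pool.Agent.Helper62.AS.Lp

/-- splitting of an integral over the cube into four ranges of values -/
lemma small_split (r : ℕ) (f : ℝ × (Fin r → ℝ) → ℝ) (hf : Continuous f) (hf0 : ∀ z, 0 ≤ f z)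
    (p l0 l1 l2 : ℝ) (hp : 0 < p) :
    ∫ z in cube r, f z ^ p ≤ (∫ z in {z ∈ cube r | f z ≤ l0}, f z ^ p) +
      (∫ z in {z ∈ cube r | l0 < f z ∧ f z ≤ l1}, f z ^ p) +
      (∫ z in {z ∈ cube r | l1 < f z ∧ f z ≤ l2}, f z ^ p) +
      (∫ z in {z ∈ cube r | l2 < f z}, f z ^ p) := by
  have hmc := cube_measurable r
  have hcomp : IsCompact (cube r) := by
    unfold cube
    exact isCompact_Icc.prod isCompact_Icc
  have hcp : Continuous fun z => f z ^ p := hf.rpow_const fun _ => Or.inr hp.le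
  have hint : IntegrableOn (fun z => f z ^ p) (cube r) :=
    hcp.continuousOn.integrableOn_compact hcomp
  have hm := hf.measurable
  have m0 : MeasurableSet {z | f z ≤ l0} := measurableSet_le hm measurable_const
  have m1 : MeasurableSet {z | l0 < f z ∧ f z ≤ l1} :=
    (measurableSet_lt measurable_const hm).inter (measurableSet_le hm measurable_const)
  have m2 : MeasurableSet {z | l1 < f z ∧ f z ≤ l2} :=
    (measurableSet_lt measurable_const hm).inter (measurableSet_le hm measurable_const)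
  have m3 : MeasurableSet {z | l2 < f z} := measurableSet_lt measurable_const hm
  have key : ∀ s : Set (ℝ × (Fin r → ℝ)), MeasurableSet s →
      ∫ z in {z ∈ cube r | z ∈ s}, f z ^ p = ∫ z in cube r, s.indicator (fun z => f z ^ p) z := by
    intro s hs
    rw [setIntegral_indicator hs]
    rfl
  have e0 := key _ m0
  have e1 := key _ m1
  have e2 := key _ m2
  have e3 := key _ m3
  simp only [Set.mem_ofPred_eq] at e0 e1 e2 e3
  rw [e0, e1, e2, e3]
  have i0 := hint.indicator m0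
  have i1 := hint.indicator m1
  have i2 := hint.indicator m2
  have i3 := hint.indicator m3
  rw [← integral_add' i0 i1, ← integral_add' (i0.add i1) i2,
    ← integral_add' ((i0.add i1).add i2) i3]
  refine integral_mono hint (((i0.add i1).add i2).add i3) fun z => ?_
  have hz : 0 ≤ f z ^ p := Real.rpow_nonneg (hf0 z) p
  have n : ∀ s : Set (ℝ × (Fin r → ℝ)), 0 ≤ s.indicator (fun z => f z ^ p) z := fun s =>
    Set.indicator_nonneg (fun x _ => Real.rpow_nonneg (hf0 x) p) z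
  have one : ∀ s : Set (ℝ × (Fin r → ℝ)), z ∈ s → s.indicator (fun z => f z ^ p) z = f z ^ p :=
    fun s hs => Set.indicator_of_mem hs _
  have n0 := n {z | f z ≤ l0}
  have n1 := n {z | l0 < f z ∧ f z ≤ l1}
  have n2 := n {z | l1 < f z ∧ f z ≤ l2}
  have n3 := n {z | l2 < f z}
  show f z ^ p ≤ _ + _ + _ + _
  rcases lt_or_ge l2 (f z) with h3 | h3
  · have := one {z | l2 < f z} h3
    linarith
  · rcases lt_or_ge l1 (f z) with h2 | h2
    · have := one {z | l1 < f z ∧ f z ≤ l2} ⟨h2, h3⟩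
      linarith
    · rcases lt_or_ge l0 (f z) with h1 | h1
      · have := one {z | l0 < f z ∧ f z ≤ l1} ⟨h1, h2⟩
        linarith
      · have := one {z | f z ≤ l0} h1
        linarith

/-- the low values, by `L²` -/
lemma small_low (r : ℕ) (b : Fin (r + 1) → ℝ) (N : ℝ) (a : ℤ × (Fin r → ℤ) → ℂ)
    (ha : ∑ ξ ∈ box r b N, ‖a ξ‖ ^ 2 ≤ 1) (p l0 : ℝ) (hp : 2 < p) (hl : 0 < l0) :
    ∫ z in {z ∈ cube r | ‖FF r (box r b N) a z.1 z.2‖ ≤ l0}, ‖FF r (box r b N) a z.1 z.2‖ ^ p ≤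
      2 * (2 * Real.pi) ^ (r + 1) * l0 ^ (p - 2) := by
  have hpi := Real.pi_pos
  set f : ℝ × (Fin r → ℝ) → ℝ := fun z => ‖FF r (box r b N) a z.1 z.2‖ with hfdef
  have hf : Continuous f := (FF_continuous r _ a).norm
  have hf0 : ∀ z, 0 ≤ f z := fun z => norm_nonneg _
  have hcomp : IsCompact (cube r) := by
    unfold cube
    exact isCompact_Icc.prod isCompact_Icc
  have hint2 : IntegrableOn (fun z => f z ^ 2) (cube r) :=
    (hf.pow 2).continuousOn.integrableOn_compact hcomp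
  have hintp : IntegrableOn (fun z => f z ^ p) (cube r) :=
    (hf.rpow_const fun _ => Or.inr (by linarith)).continuousOn.integrableOn_compact hcomp
  have hsub : {z ∈ cube r | f z ≤ l0} ⊆ cube r := fun z hz => hz.1
  have hms : MeasurableSet {z ∈ cube r | f z ≤ l0} :=
    (cube_measurable r).inter (measurableSet_le hf.measurable measurable_const)
  have h2 := l2_real r b N a
  calc ∫ z in {z ∈ cube r | f z ≤ l0}, f z ^ p
      ≤ ∫ z in {z ∈ cube r | f z ≤ l0}, l0 ^ (p - 2) * f z ^ 2 := by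
        refine setIntegral_mono_on (hintp.mono_set hsub) ((hint2.mono_set hsub).const_mul _) hms ?_
        intro z hz
        rcases (hf0 z).eq_or_lt with h0 | h0
        · rw [← h0, Real.zero_rpow (by linarith)]
          simp
        · have e : f z ^ p = f z ^ (p - 2) * f z ^ 2 := by
            rw [← Real.rpow_natCast, ← Real.rpow_add h0]
            congr 1
            push_cast
            ring
          rw [e]
          exact mul_le_mul_of_nonneg_right
            (Real.rpow_le_rpow (hf0 z) hz.2 (by linarith)) (sq_nonneg _)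
    _ = l0 ^ (p - 2) * ∫ z in {z ∈ cube r | f z ≤ l0}, f z ^ 2 := integral_const_mul _ _
    _ ≤ l0 ^ (p - 2) * ∫ z in cube r, f z ^ 2 := by
        apply mul_le_mul_of_nonneg_left _ (Real.rpow_nonneg hl.le _)
        exact setIntegral_mono_set hint2 (Filter.Eventually.of_forall fun z => sq_nonneg _)
          (Filter.Eventually.of_forall hsub)
    _ ≤ l0 ^ (p - 2) * (2 * (2 * Real.pi) ^ (r + 1) * 1) := by
        apply mul_le_mul_of_nonneg_left _ (Real.rpow_nonneg hl.le _)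
        exact h2.trans (mul_le_mul_of_nonneg_left ha (by positivity))
    _ = _ := by ring

/-- the values between two levels -/
lemma small_mid (r : ℕ) (b : Fin (r + 1) → ℝ) (N : ℝ) (a : ℤ × (Fin r → ℤ) → ℂ)
    (p q l0 l1 K : ℝ) (hl0 : 0 < l0) (hl1 : 0 < l1) (hq : 0 ≤ q) (hpq : q < p) (hK : 0 ≤ K)
    (h : ∀ lam, l0 ≤ lam → (volume {z ∈ cube r | lam < ‖FF r (box r b N) a z.1 z.2‖}).toReal ≤
      K * lam ^ (-q)) :
    ∫ z in {z ∈ cube r | l0 < ‖FF r (box r b N) a z.1 z.2‖ ∧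
      ‖FF r (box r b N) a z.1 z.2‖ ≤ l1}, ‖FF r (box r b N) a z.1 z.2‖ ^ p ≤
      2 ^ q / (1 - 2 ^ (-(p - q))) * K * l1 ^ (p - q) := by
  obtain ⟨n, hn⟩ := pow_unbounded_of_one_lt (l1 / l0) (one_lt_two)
  rw [div_lt_iff₀ hl0] at hn
  exact dyadic volume (cube r) (cube_measurable r) (cube_finite r)
    (fun z => ‖FF r (box r b N) a z.1 z.2‖) (FF_continuous r _ a).norm.measurable
    (fun z => norm_nonneg _) p q l0 l1 K hq hpq hK (fun lam h1 _ => h lam h1) n l1 hl1 hn le_rfl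

/-- scaling -/
lemma small_scale (r : ℕ) (S : Finset (ℤ × (Fin r → ℤ))) (p D : ℝ) (hp : 0 < p) (hD : 0 ≤ D)
    (h : ∀ a : ℤ × (Fin r → ℤ) → ℂ, ∑ ξ ∈ S, ‖a ξ‖ ^ 2 = 1 →
      ∫ z in cube r, ‖FF r S a z.1 z.2‖ ^ p ≤ D) (a : ℤ × (Fin r → ℤ) → ℂ) :
    ∫ z in cube r, ‖FF r S a z.1 z.2‖ ^ p ≤ D * (∑ ξ ∈ S, ‖a ξ‖ ^ 2) ^ (p / 2) := by
  set s : ℝ := Real.sqrt (∑ ξ ∈ S, ‖a ξ‖ ^ 2) with hs
  have hs0 : 0 ≤ s := Real.sqrt_nonneg _
  have hsum : 0 ≤ ∑ ξ ∈ S, ‖a ξ‖ ^ 2 := sum_nonneg fun _ _ => sq_nonneg _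
  have hs2 : s ^ 2 = ∑ ξ ∈ S, ‖a ξ‖ ^ 2 := Real.sq_sqrt hsum
  rcases hs0.eq_or_lt with h0 | hpos
  · have hsum0 : ∑ ξ ∈ S, ‖a ξ‖ ^ 2 = 0 := by rw [← hs2, ← h0]; norm_num
    have hz : ∀ z : ℝ × (Fin r → ℝ), FF r S a z.1 z.2 = 0 := by
      intro z
      unfold FF
      refine sum_eq_zero fun ξ hξ => ?_
      have h2 := (sum_eq_zero_iff_of_nonneg fun ξ _ => sq_nonneg ‖a ξ‖).mp hsum0 ξ hξ
      have h3 : a ξ = 0 := by simpa using h2
      rw [h3, zero_mul]
    have : ∀ z : ℝ × (Fin r → ℝ), ‖FF r S a z.1 z.2‖ ^ p = 0 := by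
      intro z
      rw [hz z, norm_zero, Real.zero_rpow hp.ne']
    simp_rw [this]
    rw [integral_zero]
    exact mul_nonneg hD (Real.rpow_nonneg hsum _)
  · have hFs : ∀ z : ℝ × (Fin r → ℝ), FF r S (fun ξ => ((s⁻¹ : ℝ) : ℂ) * a ξ) z.1 z.2 =
        ((s⁻¹ : ℝ) : ℂ) * FF r S a z.1 z.2 := by
      intro z
      unfold FF
      rw [mul_sum]
      exact sum_congr rfl fun ξ _ => by ring
    have hnF : ∀ z : ℝ × (Fin r → ℝ), ‖FF r S (fun ξ => ((s⁻¹ : ℝ) : ℂ) * a ξ) z.1 z.2‖ =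
        s⁻¹ * ‖FF r S a z.1 z.2‖ := by
      intro z
      rw [hFs, norm_mul, Complex.norm_real, Real.norm_eq_abs, abs_of_pos (inv_pos.mpr hpos)]
    have hns : ∑ ξ ∈ S, ‖((s⁻¹ : ℝ) : ℂ) * a ξ‖ ^ 2 = 1 := by
      have h1 : ∑ ξ ∈ S, ‖((s⁻¹ : ℝ) : ℂ) * a ξ‖ ^ 2 = (s⁻¹) ^ 2 * s ^ 2 := by
        rw [hs2, mul_sum]
        refine sum_congr rfl fun ξ _ => ?_
        rw [norm_mul, mul_pow, Complex.norm_real, Real.norm_eq_abs, sq_abs]
      rw [h1, ← mul_pow, inv_mul_cancel₀ hpos.ne', one_pow]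
    have h2 := h _ hns
    have hint : ∫ z in cube r, ‖FF r S (fun ξ => ((s⁻¹ : ℝ) : ℂ) * a ξ) z.1 z.2‖ ^ p =
        (s⁻¹) ^ p * ∫ z in cube r, ‖FF r S a z.1 z.2‖ ^ p := by
      rw [← integral_const_mul]
      refine integral_congr_ae (Filter.Eventually.of_forall fun z => ?_)
      show ‖FF r S (fun ξ => ((s⁻¹ : ℝ) : ℂ) * a ξ) z.1 z.2‖ ^ p = _
      rw [hnF, Real.mul_rpow (inv_pos.mpr hpos).le (norm_nonneg _)]
    rw [hint, Real.inv_rpow hpos.le, inv_mul_le_iff₀ (Real.rpow_pos_of_pos hpos p)] at h2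
    have e : (∑ ξ ∈ S, ‖a ξ‖ ^ 2) ^ (p / 2) = s ^ p := by
      rw [← hs2, ← Real.rpow_natCast, ← Real.rpow_mul hs0]
      congr 1
      push_cast
      ring
    rw [e]
    linarith

theorem small (r : ℕ) (hr : 1 ≤ r) (hc : S_crit r) (hm : S_mid' r) (hLS : S_LS) :
    ∃ p : ℝ, 2 + 2 / ((r : ℝ) + 1) < p ∧ p < 2 + 4 / ((r : ℝ) + 1) ∧ S_small r p := by
  obtain ⟨c, hc0, hcrit⟩ := hc
  set e : ℝ := (r : ℝ) + 1 with he
  have he2 : 2 ≤ e := by
    have : (1 : ℝ) ≤ r := by exact_mod_cast hr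
    rw [he]; linarith
  have he0 : 0 < e := by linarith
  have her : (r : ℝ) + 2 = e + 1 := by rw [he]; ring
  -- the parameters
  set η : ℝ := min (4 * c / e / (e / 4 + c)) (min (2 * c / e) (1 / (2 * e))) with hη
  have hη0 : 0 < η := by
    rw [hη]
    refine lt_min (by positivity) (lt_min (by positivity) (by positivity))
  have hη1 : η * (e / 4 + c) ≤ 4 * c / e := by
    have h := min_le_left (4 * c / e / (e / 4 + c)) (min (2 * c / e) (1 / (2 * e)))
    rw [← hη] at h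
    rwa [le_div_iff₀ (by positivity)] at h
  have hη2 : η * e ≤ 2 * c := by
    have h := (min_le_right (4 * c / e / (e / 4 + c)) (min (2 * c / e) (1 / (2 * e)))).trans
      (min_le_left _ _)
    rw [← hη] at h
    rwa [le_div_iff₀ he0] at h
  have hη3 : η * e ≤ 1 / 2 := by
    have h := (min_le_right (4 * c / e / (e / 4 + c)) (min (2 * c / e) (1 / (2 * e)))).trans
      (min_le_right _ _)
    rw [← hη] at h
    rw [le_div_iff₀ (by positivity)] at h
    linarith
  set ε : ℝ := min (c * e / 16) (1 / 16) with hε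
  have hε0 : 0 < ε := lt_min (by positivity) (by norm_num)
  have hε1 : 4 / e * ε ≤ c / 4 := by
    have h := min_le_left (c * e / 16) (1 / 16 : ℝ)
    rw [← hε] at h
    calc 4 / e * ε ≤ 4 / e * (c * e / 16) := mul_le_mul_of_nonneg_left h (by positivity)
      _ = c / 4 := by field_simp; ring
  have hε2 : ε ≤ 1 / 16 := min_le_right _ _
  set p : ℝ := 2 + 4 / e - η with hp
  have hηe : η < 2 / e := by
    rw [lt_div_iff₀ he0]; linarith
  have h2e : (0 : ℝ) < 2 / e := by positivity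
  have h42 : 4 / e = 2 / e + 2 / e := by ring
  have hpq : 2 + 2 / e < p := by rw [hp]; linarith
  have hp2 : 2 < p := by linarith
  have hp0 : 0 < p := by linarith
  refine ⟨p, hpq, by rw [hp]; linarith, ?_⟩
  intro K hK
  obtain ⟨C₁, hC₁, hcr⟩ := hcrit K hK
  obtain ⟨C₂, hC₂, hmi⟩ := hm ε K hε0 hK
  obtain ⟨C₃, A, hC₃, hA, htop⟩ := Pool.Agent.Helper62.AS.Lp.Lp hLS r p hr hpq
  -- the target exponent
  set t : ℝ := p * e / 2 - (e + 1) with ht
  have hte : t = 1 - η * e / 2 := by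
    rw [ht, hp]
    field_simp
    ring
  set A₂ : ℝ := A * (K + 1) ^ (e / 8) * (1 + 32 / e) with hA₂
  have hA₂0 : 0 < A₂ := by positivity
  set G₁ : ℝ := 2 ^ (2 : ℝ) / (1 - 2 ^ (-(p - 2))) with hG₁
  set G₂ : ℝ := 2 ^ (2 + 2 / e) / (1 - 2 ^ (-(p - (2 + 2 / e)))) with hG₂
  have hG : ∀ x y : ℝ, 0 < y → 0 < (2 : ℝ) ^ x / (1 - 2 ^ (-y)) := by
    intro x y hy
    have : (2 : ℝ) ^ (-y) < 1 :=
      Real.rpow_lt_one_of_one_lt_of_neg (by norm_num) (by linarith)
    exact div_pos (Real.rpow_pos_of_pos (by norm_num) _) (by linarith)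
  have hG₁0 : 0 < G₁ := hG _ _ (by linarith)
  have hG₂0 : 0 < G₂ := hG _ _ (by linarith)
  have hpi := Real.pi_pos
  set D₀ : ℝ := 2 * (2 * Real.pi) ^ (r + 1) with hD₀
  have hD₀0 : 0 < D₀ := by positivity
  refine ⟨D₀ + G₁ * C₁ + G₂ * C₂ * A₂ ^ (p - (2 + 2 / e)) + C₃ ^ p, by positivity, ?_⟩
  intro b N a hN hb
  have hN0 : 0 < N := by linarith
  rw [her]
  refine small_scale r (box r b N) p _ hp0 (by positivity) ?_ a
  clear a
  intro a ha
  have hNt : 0 < N ^ t := Real.rpow_pos_of_pos hN0 _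
  set l0 : ℝ := N ^ (e / 4 - c) with hl0
  set l1 : ℝ := N ^ (e / 4 + ε) with hl1
  set l2 : ℝ := A * ((|b 0| + N) * N) ^ (e / 8) * (1 + Real.log N) with hl2
  have hl00 : 0 < l0 := Real.rpow_pos_of_pos hN0 _
  have hl10 : 0 < l1 := Real.rpow_pos_of_pos hN0 _
  have hlog : 0 < Real.log N := Real.log_pos hN
  have hbN : 0 < (|b 0| + N) * N := by positivity
  have hl20 : 0 < l2 := by positivity
  have hmon : ∀ x : ℝ, x ≤ t → N ^ x ≤ N ^ t := fun x hx =>
    Real.rpow_le_rpow_of_exponent_le hN.le hx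
  -- low
  have P0 : ∫ z in {z ∈ cube r | ‖FF r (box r b N) a z.1 z.2‖ ≤ l0},
      ‖FF r (box r b N) a z.1 z.2‖ ^ p ≤ D₀ * N ^ t := by
    refine (small_low r b N a ha.le p l0 hp2 hl00).trans ?_
    refine mul_le_mul_of_nonneg_left ?_ hD₀0.le
    rw [hl0, ← Real.rpow_mul hN0.le]
    apply hmon
    rw [hte, hp]
    have e1 : (e / 4 - c) * (2 + 4 / e - η - 2) = 1 - η * e / 4 - 4 * c / e + c * η := by
      field_simp
      ring
    rw [e1]
    linarith
  -- critical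
  have P1 : ∫ z in {z ∈ cube r | l0 < ‖FF r (box r b N) a z.1 z.2‖ ∧
      ‖FF r (box r b N) a z.1 z.2‖ ≤ l1}, ‖FF r (box r b N) a z.1 z.2‖ ^ p ≤
      G₁ * C₁ * N ^ t := by
    have h := small_mid r b N a p 2 l0 l1 (C₁ * N ^ (-c)) hl00 hl10 (by norm_num) hp2
      (by positivity) (fun lam hlam => hcr b N lam a hN hb hlam ha.le)
    refine h.trans ?_
    rw [← hG₁]
    have e1 : G₁ * (C₁ * N ^ (-c)) * l1 ^ (p - 2) = G₁ * C₁ * (N ^ (-c) * l1 ^ (p - 2)) := by ring
    rw [e1]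
    refine mul_le_mul_of_nonneg_left ?_ (by positivity)
    rw [hl1, ← Real.rpow_mul hN0.le, ← Real.rpow_add hN0]
    apply hmon
    rw [hte, hp]
    have e2 : -c + (e / 4 + ε) * (2 + 4 / e - η - 2) =
        1 - η * e / 4 + 4 / e * ε - ε * η - c := by
      field_simp
      ring
    rw [e2]
    have : 0 < ε * η := by positivity
    linarith
  -- middle
  have P2 : ∫ z in {z ∈ cube r | l1 < ‖FF r (box r b N) a z.1 z.2‖ ∧
      ‖FF r (box r b N) a z.1 z.2‖ ≤ l2}, ‖FF r (box r b N) a z.1 z.2‖ ^ p ≤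
      G₂ * C₂ * A₂ ^ (p - (2 + 2 / e)) * N ^ t := by
    have h := small_mid r b N a p (2 + 2 / e) l1 l2 (C₂ * N ^ ε) hl10 hl20 (by positivity) hpq
      (by positivity) (fun lam hlam => hmi b N lam a hN hb hlam ha.le)
    refine h.trans ?_
    rw [← hG₂]
    have hl2le : l2 ≤ A₂ * N ^ (13 * e / 32) := by
      have h1 : (|b 0| + N) * N ≤ (K + 1) * N ^ (3 : ℝ) := by
        have h2 : N ≤ N ^ 2 := by nlinarith only [hN]
        have h3 : |b 0| + N ≤ (K + 1) * N ^ 2 := by linarith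
        have h4 : (3 : ℝ) = ((3 : ℕ) : ℝ) := by norm_num
        rw [h4, Real.rpow_natCast]
        calc (|b 0| + N) * N ≤ (K + 1) * N ^ 2 * N := mul_le_mul_of_nonneg_right h3 hN0.le
          _ = (K + 1) * N ^ 3 := by ring
      have h5 : ((|b 0| + N) * N) ^ (e / 8) ≤ (K + 1) ^ (e / 8) * N ^ (3 * (e / 8)) := by
        calc ((|b 0| + N) * N) ^ (e / 8) ≤ ((K + 1) * N ^ (3 : ℝ)) ^ (e / 8) :=
              Real.rpow_le_rpow hbN.le h1 (by positivity)
          _ = _ := by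
              rw [Real.mul_rpow (by positivity) (by positivity), ← Real.rpow_mul hN0.le]
      have h6 : 1 + Real.log N ≤ (1 + 32 / e) * N ^ (e / 32) := by
        have h7 : Real.log N ≤ N ^ (e / 32) / (e / 32) :=
          Real.log_le_rpow_div hN0.le (by positivity)
        have h8 : 1 ≤ N ^ (e / 32) := Real.one_le_rpow hN.le (by positivity)
        have h9 : N ^ (e / 32) / (e / 32) = 32 / e * N ^ (e / 32) := by
          field_simp
        rw [h9] at h7
        linarith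
      calc l2 ≤ A * ((K + 1) ^ (e / 8) * N ^ (3 * (e / 8))) * ((1 + 32 / e) * N ^ (e / 32)) := by
            rw [hl2]
            exact mul_le_mul (mul_le_mul_of_nonneg_left h5 hA.le) h6 (by positivity)
              (by positivity)
        _ = A₂ * (N ^ (3 * (e / 8)) * N ^ (e / 32)) := by
            rw [hA₂]; ring
        _ = A₂ * N ^ (13 * e / 32) := by
            rw [← Real.rpow_add hN0]
            congr 2
            ring
    have hpq' : 0 ≤ p - (2 + 2 / e) := by linarith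
    have h10 : l2 ^ (p - (2 + 2 / e)) ≤
        A₂ ^ (p - (2 + 2 / e)) * N ^ (13 * e / 32 * (p - (2 + 2 / e))) := by
      calc l2 ^ (p - (2 + 2 / e)) ≤ (A₂ * N ^ (13 * e / 32)) ^ (p - (2 + 2 / e)) :=
            Real.rpow_le_rpow hl20.le hl2le hpq'
        _ = _ := by
            rw [Real.mul_rpow hA₂0.le (by positivity), ← Real.rpow_mul hN0.le]
    calc G₂ * (C₂ * N ^ ε) * l2 ^ (p - (2 + 2 / e)) ≤
        G₂ * (C₂ * N ^ ε) *
          (A₂ ^ (p - (2 + 2 / e)) * N ^ (13 * e / 32 * (p - (2 + 2 / e)))) :=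
          mul_le_mul_of_nonneg_left h10 (by positivity)
      _ = G₂ * C₂ * A₂ ^ (p - (2 + 2 / e)) *
          (N ^ ε * N ^ (13 * e / 32 * (p - (2 + 2 / e)))) := by ring
      _ ≤ G₂ * C₂ * A₂ ^ (p - (2 + 2 / e)) * N ^ t := by
          refine mul_le_mul_of_nonneg_left ?_ (by positivity)
          rw [← Real.rpow_add hN0]
          apply hmon
          rw [hte, hp]
          have e3 : ε + 13 * e / 32 * (2 + 4 / e - η - (2 + 2 / e)) =
              ε + 13 / 16 - 13 * (η * e) / 32 := by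
            field_simp
            ring
          rw [e3]
          linarith
  -- top
  have P3 : ∫ z in {z ∈ cube r | l2 < ‖FF r (box r b N) a z.1 z.2‖},
      ‖FF r (box r b N) a z.1 z.2‖ ^ p ≤ C₃ ^ p * N ^ t := by
    have h := htop b N a hN
    rw [← he, ha, Real.sqrt_one, mul_one, mul_one, ← hl2, her] at h
    set I : ℝ := ∫ z in {z ∈ cube r | l2 < ‖FF r (box r b N) a z.1 z.2‖},
      ‖FF r (box r b N) a z.1 z.2‖ ^ p with hI
    have hI0 : 0 ≤ I := integral_nonneg fun z => Real.rpow_nonneg (norm_nonneg _) _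
    have h1 : (I ^ (1 / p)) ^ p ≤ (C₃ * N ^ (e / 2 - (e + 1) / p)) ^ p :=
      Real.rpow_le_rpow (Real.rpow_nonneg hI0 _) h hp0.le
    rw [← Real.rpow_mul hI0, one_div_mul_cancel hp0.ne', Real.rpow_one,
      Real.mul_rpow hC₃.le (by positivity), ← Real.rpow_mul hN0.le] at h1
    have e4 : (e / 2 - (e + 1) / p) * p = t := by
      rw [ht]
      field_simp
    rw [e4] at h1
    exact h1
  have hsplit := small_split r (fun z => ‖FF r (box r b N) a z.1 z.2‖)
    (FF_continuous r _ a).norm (fun z => norm_nonneg _) p l0 l1 l2 hp0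
  refine hsplit.trans ?_
  calc _ ≤ D₀ * N ^ t + G₁ * C₁ * N ^ t + G₂ * C₂ * A₂ ^ (p - (2 + 2 / e)) * N ^ t +
      C₃ ^ p * N ^ t := add_le_add (add_le_add (add_le_add P0 P1) P2) P3
    _ = _ := by ring

end Stx
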